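import Pool.Agent.H181R5.NLT.Stmts

/-!
Task Greedy of project H181-NLT (helper811).
-/

set_option autoImplicit false

namespace Pool.Agent.H811R3.NLT

open Finset
open Pool.Agent.H181R5.NLH Pool.Agent.H181R5.NLT

/-- interior vertices of the chosen paths -/
def Int' {V : Type} [DecidableEq V] {m : ℕ} (len : Fin m → Fin m → ℕ) (p : Fin m → Fin m → ℕ → V)
    (P : Finset (Fin m × Fin m)) : Finset V :=
  P.biUnion fun e => (Ioo 0 (len e.1 e.2)).image (p e.1 e.2)

/-- the invariant -/
structure Inv {V : Type} [DecidableEq V] (D : V → V → Prop) (S : Finset V) (L m : ℕ) (u : Fin m → V)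
    (P : Finset (Fin m × Fin m)) (len : Fin m → Fin m → ℕ) (p : Fin m → Fin m → ℕ → V) : Prop where
  h1 : ∀ i j, (i, j) ∈ P → 1 ≤ len i j ∧ len i j ≤ L ∧ p i j 0 = u i ∧ p i j (len i j) = u j
  h2 : ∀ i j, (i, j) ∈ P → ∀ t, t < len i j → D (p i j t) (p i j (t + 1))
  h3 : ∀ i j, (i, j) ∈ P → ∀ t, 0 < t → t < len i j → p i j t ∈ S
  h4 : ∀ i j k, (i, j) ∈ P → ∀ t, 0 < t → t < len i j → p i j t ≠ u k
  h5 : ∀ i j i' j' t t', (i, j) ∈ P → (i', j') ∈ P → 0 < t → t < len i j → 0 < t' → t' < len i' j' →
      p i j t = p i' j' t' → i = i' ∧ j = j' ∧ t = t'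

theorem step {V : Type} [Fintype V] [DecidableEq V] (D : V → V → Prop) (S : Finset V) (h L m : ℕ)
    (hS : ∀ U : Finset V, U ⊆ S → U.card ≤ h → ∀ a ∈ S \ U, ∀ b ∈ S \ U, a ≠ b →
      ShortPath D S U L a b) (hm : m + m ^ 2 * L ≤ h) (u : Fin m → V) (hu : Function.Injective u)
    (huS : ∀ i, u i ∈ S) (P : Finset (Fin m × Fin m)) (e : Fin m × Fin m) (he : e ∉ P)
    (hlt : e.1 < e.2) (len : Fin m → Fin m → ℕ) (p : Fin m → Fin m → ℕ → V)
    (hI : Inv D S L m u P len p) : ∃ len' p', Inv D S L m u (insert e P) len' p' := by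
  obtain ⟨a, b⟩ := e
  simp only at hlt
  have hIS : ∀ v ∈ Int' len p P, v ∈ S ∧ (∀ k, v ≠ u k) := by
    intro v hv
    unfold Int' at hv
    rw [mem_biUnion] at hv
    obtain ⟨⟨i, j⟩, hij, hv⟩ := hv
    rw [mem_image] at hv
    obtain ⟨t, ht, rfl⟩ := hv
    rw [mem_Ioo] at ht
    exact ⟨hI.h3 i j hij t ht.1 ht.2, fun k => hI.h4 i j k hij t ht.1 ht.2⟩
  have hcard : (Int' len p P).card ≤ m ^ 2 * L := by
    unfold Int'
    calc _ ≤ P.card * L := by
          apply card_biUnion_le_card_mul
          rintro ⟨i, j⟩ hij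
          refine card_image_le.trans ?_
          rw [Nat.card_Ioo]
          have := (hI.h1 i j hij).2.1
          simp only
          omega
      _ ≤ _ := by
          apply Nat.mul_le_mul_right
          calc P.card ≤ (univ : Finset (Fin m × Fin m)).card := card_le_card (subset_univ _)
            _ = m ^ 2 := by rw [card_univ, Fintype.card_prod, Fintype.card_fin, sq]
  let B : Finset V := (univ.image u) \ {u a, u b}
  have hBcard : B.card ≤ m := by
    calc B.card ≤ (univ.image u).card := card_le_card sdiff_subset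
      _ ≤ (univ : Finset (Fin m)).card := card_image_le
      _ = m := by rw [card_univ, Fintype.card_fin]
  have hUS : B ∪ Int' len p P ⊆ S := by
    intro v hv
    rcases mem_union.mp hv with hv | hv
    · obtain ⟨k, _, rfl⟩ := mem_image.mp (mem_sdiff.mp hv).1
      exact huS k
    · exact (hIS v hv).1
  have hUc : (B ∪ Int' len p P).card ≤ h := by
    calc _ ≤ B.card + (Int' len p P).card := card_union_le _ _
      _ ≤ m + m ^ 2 * L := add_le_add hBcard hcard
      _ ≤ h := hm
  have hmem : ∀ k, k = a ∨ k = b → u k ∈ S \ (B ∪ Int' len p P) := by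
    intro k hk
    rw [mem_sdiff, mem_union]
    refine ⟨huS k, ?_⟩
    rintro (hv | hv)
    · have := (mem_sdiff.mp hv).2
      apply this
      rcases hk with rfl | rfl <;> simp
    · exact (hIS _ hv).2 k rfl
  obtain ⟨n, q, hn1, hnL, hq0, hqn, hqD, hqS, hqi⟩ := hS _ hUS hUc (u a) (hmem a (Or.inl rfl)) (u b)
    (hmem b (Or.inr rfl)) (fun hc => hlt.ne (hu hc))
  -- interior of the new path
  have hqu : ∀ t, 0 < t → t < n → ∀ k, q t ≠ u k := by
    intro t h0 h1 k hc
    have h2 := hqS t h1.le
    rw [mem_sdiff, mem_union] at h2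
    by_cases hka : k = a
    · have := hqi t 0 h1.le (Nat.zero_le _) (by rw [hc, hka, hq0])
      omega
    · by_cases hkb : k = b
      · have := hqi t n h1.le le_rfl (by rw [hc, hkb, hqn])
        omega
      · apply h2.2
        left
        rw [hc]
        refine mem_sdiff.mpr ⟨mem_image_of_mem _ (mem_univ _), ?_⟩
        rw [mem_insert, mem_singleton]
        rintro (hh | hh)
        · exact hka (hu hh)
        · exact hkb (hu hh)
  have hqI : ∀ t, t ≤ n → q t ∉ Int' len p P := by
    intro t h1 hc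
    have h2 := hqS t h1
    rw [mem_sdiff, mem_union] at h2
    exact h2.2 (Or.inr hc)
  have hne : ∀ i j, (i, j) ∈ P → ¬ (i = a ∧ j = b) := by
    rintro i j hij ⟨rfl, rfl⟩
    exact he hij
  have hInt : ∀ i j, (i, j) ∈ P → ∀ t, 0 < t → t < len i j → p i j t ∈ Int' len p P := by
    intro i j hij t h0 h1
    unfold Int'
    rw [mem_biUnion]
    exact ⟨(i, j), hij, mem_image_of_mem _ (mem_Ioo.mpr ⟨h0, h1⟩)⟩
  refine ⟨fun i j => if i = a ∧ j = b then n else len i j,
    fun i j => if i = a ∧ j = b then q else p i j, ?_⟩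
  constructor
  · intro i j hij
    by_cases hc : i = a ∧ j = b
    · simp only [if_pos hc]
      obtain ⟨rfl, rfl⟩ := hc
      exact ⟨hn1, hnL, hq0, hqn⟩
    · simp only [if_neg hc]
      rcases mem_insert.mp hij with hh | hh
      · exact absurd (Prod.mk.inj hh) hc
      · exact hI.h1 i j hh
  · intro i j hij t ht
    by_cases hc : i = a ∧ j = b
    · simp only [if_pos hc] at ht ⊢
      exact hqD t ht
    · simp only [if_neg hc] at ht ⊢
      rcases mem_insert.mp hij with hh | hh
      · exact absurd (Prod.mk.inj hh) hc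
      · exact hI.h2 i j hh t ht
  · intro i j hij t h0 ht
    by_cases hc : i = a ∧ j = b
    · simp only [if_pos hc] at ht ⊢
      exact (mem_sdiff.mp (hqS t ht.le)).1
    · simp only [if_neg hc] at ht ⊢
      rcases mem_insert.mp hij with hh | hh
      · exact absurd (Prod.mk.inj hh) hc
      · exact hI.h3 i j hh t h0 ht
  · intro i j k hij t h0 ht
    by_cases hc : i = a ∧ j = b
    · simp only [if_pos hc] at ht ⊢
      exact hqu t h0 ht k
    · simp only [if_neg hc] at ht ⊢
      rcases mem_insert.mp hij with hh | hh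
      · exact absurd (Prod.mk.inj hh) hc
      · exact hI.h4 i j k hh t h0 ht
  · intro i j i' j' t t' hij hij' h0 ht h0' ht' heq
    by_cases hc : i = a ∧ j = b
    · by_cases hc' : i' = a ∧ j' = b
      · simp only [if_pos hc, if_pos hc'] at ht ht' heq
        have := hqi t t' ht.le ht'.le heq
        exact ⟨hc.1.trans hc'.1.symm, hc.2.trans hc'.2.symm, this⟩
      · simp only [if_pos hc, if_neg hc'] at ht ht' heq
        rcases mem_insert.mp hij' with hh | hh
        · exact absurd (Prod.mk.inj hh) hc'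
        · exact absurd (heq ▸ hInt i' j' hh t' h0' ht') (hqI t ht.le)
    · by_cases hc' : i' = a ∧ j' = b
      · simp only [if_neg hc, if_pos hc'] at ht ht' heq
        rcases mem_insert.mp hij with hh | hh
        · exact absurd (Prod.mk.inj hh) hc
        · exact absurd (heq ▸ hInt i j hh t h0 ht) (hqI t' ht'.le)
      · simp only [if_neg hc, if_neg hc'] at ht ht' heq
        rcases mem_insert.mp hij with hh | hh
        · exact absurd (Prod.mk.inj hh) hc
        · rcases mem_insert.mp hij' with hh' | hh'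
          · exact absurd (Prod.mk.inj hh') hc'
          · exact hI.h5 i j i' j' t t' hh hh' h0 ht h0' ht' heq

theorem taskGreedy : TaskGreedy := by
  intro V _ _ D S h L m hS hm hmS
  obtain ⟨B, hBS, hBc⟩ := exists_subset_card_eq hmS
  let e : Fin m ≃ B := (B.equivFinOfCardEq hBc).symm
  have hu : Function.Injective (fun i => (e i : V)) := fun i j hij => e.injective (Subtype.ext hij)
  have huS : ∀ i, (e i : V) ∈ S := fun i => hBS (e i).2
  have key : ∀ P : Finset (Fin m × Fin m), (∀ x ∈ P, x.1 < x.2) →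
      ∃ len p, Inv D S L m (fun i => (e i : V)) P len p := by
    intro P
    induction P using Finset.induction_on with
    | empty =>
      intro _
      exact ⟨fun _ _ => 0, fun i _ _ => (e i : V), by constructor <;> simp⟩
    | insert x P hx ih =>
      intro hP
      obtain ⟨len, p, hI⟩ := ih fun y hy => hP y (mem_insert_of_mem hy)
      exact step D S h L m hS hm _ hu huS P x hx (hP x (mem_insert_self _ _)) len p hI
  obtain ⟨len, p, hI⟩ := key (univ.filter fun x => x.1 < x.2) (fun x hx => (mem_filter.mp hx).2)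
  have hmem : ∀ i j : Fin m, i < j → (i, j) ∈ (univ.filter fun x : Fin m × Fin m => x.1 < x.2) :=
    fun i j hij => mem_filter.mpr ⟨mem_univ _, hij⟩
  refine ⟨fun i => (e i : V), len, p, hu, huS, ?_, ?_, ?_, ?_, ?_⟩
  · intro i j hij
    have := hI.h1 i j (hmem i j hij)
    exact ⟨this.1, this.2.2⟩
  · intro i j hij
    exact hI.h2 i j (hmem i j hij)
  · intro i j hij
    exact hI.h3 i j (hmem i j hij)
  · intro i j k hij
    exact hI.h4 i j k (hmem i j hij)
  · intro i j i' j' t t' hij hij'
    exact hI.h5 i j i' j' t t' (hmem i j hij) (hmem i' j' hij')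

end Pool.Agent.H811R3.NLT
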